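import Mathlib
import Pool.Agent.H8.Chord

namespace Pool.Agent.Results.MP_e9cb08_gt.Holds

open MeasureTheory Set Filter Topology WithLp

variable {m : ℕ}

/-- Insert the coordinate `t` at place `i`. -/
noncomputable def ins (i : Fin (m + 1)) (x : EuclideanSpace ℝ (Fin m)) (t : ℝ) :
    EuclideanSpace ℝ (Fin (m + 1)) :=
  toLp 2 (Fin.insertNth (α := fun _ => ℝ) i t (ofLp x))

/-- Forget the coordinate `i`. -/
noncomputable def prj (i : Fin (m + 1)) (y : EuclideanSpace ℝ (Fin (m + 1))) :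
    EuclideanSpace ℝ (Fin m) :=
  toLp 2 fun j => y (i.succAbove j)

lemma ins_same (i : Fin (m + 1)) (x : EuclideanSpace ℝ (Fin m)) (t : ℝ) : ins i x t i = t := by
  simp [ins]

lemma ins_succ (i : Fin (m + 1)) (x : EuclideanSpace ℝ (Fin m)) (t : ℝ) (j : Fin m) :
    ins i x t (i.succAbove j) = x j := by
  simp [ins]

lemma ext_ins (i : Fin (m + 1)) {y z : EuclideanSpace ℝ (Fin (m + 1))} (h1 : y i = z i)
    (h2 : ∀ j, y (i.succAbove j) = z (i.succAbove j)) : y = z := by
  ext k
  revert k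
  rw [Fin.forall_iff_succAbove i]
  exact ⟨h1, h2⟩

lemma prj_ins (i : Fin (m + 1)) (x : EuclideanSpace ℝ (Fin m)) (t : ℝ) : prj i (ins i x t) = x := by
  ext j
  simp [prj, ins_succ]

lemma ins_prj (i : Fin (m + 1)) (y : EuclideanSpace ℝ (Fin (m + 1))) :
    ins i (prj i y) (y i) = y :=
  ext_ins i (ins_same _ _ _) fun j => by rw [ins_succ]; rfl

lemma ins_add (i : Fin (m + 1)) (x : EuclideanSpace ℝ (Fin m)) (t s : ℝ) :
    ins i x t + s • EuclideanSpace.single i (1 : ℝ) = ins i x (t + s) :=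
  ext_ins i (by simp [ins_same]) fun j => by simp [ins_succ, Fin.succAbove_ne]

lemma ins_comb (i : Fin (m + 1)) (x : EuclideanSpace ℝ (Fin m)) (s t a b : ℝ) (h : a + b = 1) :
    a • ins i x s + b • ins i x t = ins i x (a • s + b • t) :=
  ext_ins i (by simp [ins_same]) fun j => by
    simp only [PiLp.add_apply, PiLp.smul_apply, ins_succ, smul_eq_mul]
    rw [← add_mul, h, one_mul]

lemma cont_ins (i : Fin (m + 1)) :
    Continuous fun p : ℝ × EuclideanSpace ℝ (Fin m) => ins i p.2 p.1 := by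
  unfold ins
  refine (PiLp.continuous_toLp 2 _).comp (continuous_pi ?_)
  rw [Fin.forall_iff_succAbove i]
  refine ⟨by simpa using continuous_fst, fun j => ?_⟩
  simp only [Fin.insertNth_apply_succAbove]
  fun_prop

lemma lip_prj (i : Fin (m + 1)) : LipschitzWith 1 (prj i) := by
  refine LipschitzWith.of_dist_le_mul fun y z => ?_
  rw [NNReal.coe_one, one_mul, EuclideanSpace.dist_eq, EuclideanSpace.dist_eq,
    Fin.sum_univ_succAbove _ i]
  exact Real.sqrt_le_sqrt (le_add_of_nonneg_left (by positivity))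

lemma fubini (i : Fin (m + 1)) (G : EuclideanSpace ℝ (Fin (m + 1)) → ENNReal) (hG : Measurable G) :
    ∫⁻ z, G z = ∫⁻ x, ∫⁻ t, G (ins i x t) := by
  have h1 : MeasurePreserving (fun p : ℝ × EuclideanSpace ℝ (Fin m) => ins i p.2 p.1)
      (volume.prod volume) volume :=
    (PiLp.volume_preserving_toLp (Fin (m + 1))).comp
      ((volume_preserving_piFinSuccAbove (fun _ : Fin (m + 1) => ℝ) i).symm.comp
        ((MeasurePreserving.id volume).prod (PiLp.volume_preserving_ofLp (Fin m))))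
  rw [← h1.lintegral_comp hG]
  exact lintegral_prod_symm' _ (hG.comp h1.measurable)

lemma graph_le (i : Fin (m + 1)) (F : EuclideanSpace ℝ (Fin (m + 1)) → ENNReal) (hF : Measurable F)
    (b : EuclideanSpace ℝ (Fin m) → ℝ) (hb : Measurable b) (U : Set (EuclideanSpace ℝ (Fin m)))
    (hU : MeasurableSet U) :
    ∫⁻ x in U, F (ins i x (b x)) ≤ ∫⁻ y in {y | prj i y ∈ U ∧ y i = b (prj i y)}, F y ∂μHE[m] := by
  set T : Set (EuclideanSpace ℝ (Fin (m + 1))) := {y | prj i y ∈ U ∧ y i = b (prj i y)} with hT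
  have hp : Measurable (prj i) := (lip_prj i).continuous.measurable
  have hTm : MeasurableSet T :=
    (hp hU).inter (measurableSet_eq_fun (by fun_prop) (hb.comp hp))
  have hG : Measurable fun x => F (ins i x (b x)) :=
    hF.comp ((cont_ins i).measurable.comp (hb.prodMk measurable_id))
  have hle : volume.restrict U ≤ ((μHE[m]).restrict T).map (prj i) := by
    refine Measure.le_iff.2 fun S hS => ?_
    rw [Measure.restrict_apply hS, Measure.map_apply hp hS, Measure.restrict_apply (hp hS),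
      ← EuclideanSpace.euclideanHausdorffMeasure_eq_volume]
    have h1 : S ∩ U ⊆ prj i '' (prj i ⁻¹' S ∩ T) := fun x hx =>
      ⟨ins i x (b x), ⟨by rw [mem_preimage, prj_ins]; exact hx.1, by
        rw [hT, mem_ofPred_eq, prj_ins, ins_same]; exact ⟨hx.2, rfl⟩⟩, prj_ins _ _ _⟩
    refine (measure_mono h1).trans ?_
    simp only [Measure.euclideanHausdorffMeasure_def, Measure.smul_apply, ENNReal.smul_def,
      smul_eq_mul]
    have h2 := (lip_prj i).hausdorffMeasure_image_le (d := (m : ℝ)) (Nat.cast_nonneg m)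
      (prj i ⁻¹' S ∩ T)
    rw [ENNReal.coe_one, ENNReal.one_rpow, one_mul] at h2
    exact mul_le_mul_right h2 _
  refine (lintegral_mono' hle le_rfl).trans ?_
  rw [lintegral_map hG hp]
  refine (setLIntegral_congr_fun hTm fun y hy => ?_).le
  rw [← hy.2, ins_prj]

lemma direction (i : Fin (m + 1)) (h : EuclideanSpace ℝ (Fin (m + 1)) → ℝ)
    (hconv : ConvexOn ℝ univ h) (h0 : ∀ y, 0 ≤ h y) (C : Set (EuclideanSpace ℝ (Fin (m + 1))))
    (hC : IsCompact C) (hCc : Convex ℝ C) (c : ℝ) (hc : 0 ≤ c) (hc2 : c ≤ 1 / 2) :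
    2 * ∫⁻ z in C, ENNReal.ofReal
        (h z * √(c ^ 2 + (lineDeriv ℝ h z (EuclideanSpace.single i 1)) ^ 2)) ≤
      ∫⁻ y in frontier C, ENNReal.ofReal (‖y‖ ^ 2 + h y ^ 2) ∂μHE[m] := by
  have hcont : Continuous h := hconv.locallyLipschitz.continuous
  have hCm : MeasurableSet C := hC.isClosed.measurableSet
  have hp : Continuous (prj i) := (lip_prj i).continuous
  set G : EuclideanSpace ℝ (Fin (m + 1)) → ENNReal := fun z => ENNReal.ofReal
    (h z * √(c ^ 2 + (lineDeriv ℝ h z (EuclideanSpace.single i 1)) ^ 2)) with hG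
  set F : EuclideanSpace ℝ (Fin (m + 1)) → ENNReal := fun y =>
    ENNReal.ofReal (‖y‖ ^ 2 + h y ^ 2) with hF
  have hGm : Measurable G := by
    have := measurable_lineDeriv (𝕜 := ℝ) (v := EuclideanSpace.single i (1 : ℝ)) hcont
    have := hcont.measurable
    fun_prop
  have hFm : Measurable F := by
    have := hcont.measurable
    fun_prop
  let sl : EuclideanSpace ℝ (Fin m) → Set ℝ := fun x => {t | ins i x t ∈ C}
  have hsl : ∀ x, IsCompact (sl x) := by
    intro x
    have : sl x = (fun y : EuclideanSpace ℝ (Fin (m + 1)) => y i) '' (C ∩ prj i ⁻¹' {x}) := by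
      ext t
      constructor
      · intro ht
        exact ⟨ins i x t, ⟨ht, prj_ins _ _ _⟩, ins_same _ _ _⟩
      · rintro ⟨y, ⟨hy, rfl⟩, rfl⟩
        show ins i (prj i y) (y i) ∈ C
        rwa [ins_prj]
    rw [this]
    exact (hC.inter_right (isClosed_singleton.preimage hp)).image (by fun_prop)
  have hslc : ∀ x, Convex ℝ (sl x) := fun x s hs t ht a b ha hb hab => by
    show ins i x (a • s + b • t) ∈ C
    rw [← ins_comb i x s t a b hab]
    exact hCc hs ht ha hb hab
  let a : EuclideanSpace ℝ (Fin m) → ℝ := fun x => sInf (sl x)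
  let b : EuclideanSpace ℝ (Fin m) → ℝ := fun x => sSup (sl x)
  have hIcc : ∀ x, (sl x).Nonempty → sl x = Icc (a x) (b x) := fun x hx =>
    eq_Icc_of_connected_compact ((hslc x).isConnected hx) (hsl x)
  have hne : ∀ x, (sl x).Nonempty ↔ x ∈ prj i '' C := fun x =>
    ⟨fun ⟨t, ht⟩ => ⟨_, ht, prj_ins _ _ _⟩, fun ⟨y, hy, e⟩ => ⟨y i, by
      show ins i x (y i) ∈ C
      rwa [← e, ins_prj]⟩⟩
  have hK : MeasurableSet (prj i '' C) := (hC.image hp).isClosed.measurableSet
  have hbm : Measurable b := by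
    refine measurable_of_Ici fun s => ?_
    have : b ⁻¹' Ici s = prj i '' (C ∩ {y | s ≤ y i}) ∪ ((prj i '' C)ᶜ ∩ {_x | s ≤ 0}) := by
      ext x
      by_cases hx : (sl x).Nonempty
      · constructor
        · intro hs
          exact Or.inl ⟨ins i x (b x), ⟨(hsl x).sSup_mem hx, by
            rw [mem_ofPred_eq, ins_same]; exact hs⟩, prj_ins _ _ _⟩
        · rintro (⟨y, ⟨hy, hs⟩, rfl⟩ | ⟨h1, -⟩)
          · refine le_trans hs (le_csSup (hsl _).bddAbove ?_)
            show ins i (prj i y) (y i) ∈ C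
            rwa [ins_prj]
          · exact absurd ((hne x).1 hx) h1
      · have e : b x = 0 := by
          show sSup (sl x) = 0
          rw [not_nonempty_iff_eq_empty.1 hx, Real.sSup_empty]
        constructor
        · intro hs
          exact Or.inr ⟨fun h1 => hx ((hne x).2 h1), by rw [← e]; exact hs⟩
        · rintro (⟨y, ⟨hy, -⟩, e'⟩ | ⟨-, h1⟩)
          · exact absurd ((hne x).2 ⟨y, hy, e'⟩) hx
          · rw [mem_preimage, e]; exact h1
    rw [this]
    exact ((hC.inter_right (isClosed_le continuous_const (by fun_prop))).image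
      hp).isClosed.measurableSet.union (hK.compl.inter (MeasurableSet.const _))
  have ham : Measurable a := by
    refine measurable_of_Iic fun s => ?_
    have : a ⁻¹' Iic s = prj i '' (C ∩ {y | y i ≤ s}) ∪ ((prj i '' C)ᶜ ∩ {_x | 0 ≤ s}) := by
      ext x
      by_cases hx : (sl x).Nonempty
      · constructor
        · intro hs
          exact Or.inl ⟨ins i x (a x), ⟨(hsl x).sInf_mem hx, by
            rw [mem_ofPred_eq, ins_same]; exact hs⟩, prj_ins _ _ _⟩
        · rintro (⟨y, ⟨hy, hs⟩, rfl⟩ | ⟨h1, -⟩)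
          · refine le_trans (csInf_le (hsl _).bddBelow ?_) hs
            show ins i (prj i y) (y i) ∈ C
            rwa [ins_prj]
          · exact absurd ((hne x).1 hx) h1
      · have e : a x = 0 := by
          show sInf (sl x) = 0
          rw [not_nonempty_iff_eq_empty.1 hx, Real.sInf_empty]
        constructor
        · intro hs
          exact Or.inr ⟨fun h1 => hx ((hne x).2 h1), by rw [← e]; exact hs⟩
        · rintro (⟨y, ⟨hy, -⟩, e'⟩ | ⟨-, h1⟩)
          · exact absurd ((hne x).2 ⟨y, hy, e'⟩) hx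
          · rw [mem_preimage, e]; exact h1
    rw [this]
    exact ((hC.inter_right (isClosed_le (by fun_prop) continuous_const)).image
      hp).isClosed.measurableSet.union (hK.compl.inter (MeasurableSet.const _))
  let U : Set (EuclideanSpace ℝ (Fin m)) := {x | a x < b x}
  have hU : MeasurableSet U := measurableSet_lt ham hbm
  have hUne : ∀ x ∈ U, (sl x).Nonempty := by
    intro x hx
    by_contra h1
    have : sInf (sl x) < sSup (sl x) := hx
    rw [not_nonempty_iff_eq_empty.1 h1, Real.sInf_empty, Real.sSup_empty] at this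
    exact lt_irrefl _ this
  have hFge : ∀ x t, ENNReal.ofReal (t ^ 2 + h (ins i x t) ^ 2) ≤ F (ins i x t) := by
    intro x t
    refine ENNReal.ofReal_le_ofReal (add_le_add_left ?_ _)
    have h1 := PiLp.norm_apply_le (ins i x t) i
    rw [ins_same, Real.norm_eq_abs] at h1
    rw [← sq_abs]
    exact pow_le_pow_left₀ (abs_nonneg _) h1 2
  have hinner : ∀ x, 2 * ∫⁻ t, C.indicator G (ins i x t) ≤
      U.indicator (fun x => F (ins i x (a x)) + F (ins i x (b x))) x := by
    intro x
    have e1 : ∫⁻ t, C.indicator G (ins i x t) = ∫⁻ t in sl x, G (ins i x t) := by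
      rw [← lintegral_indicator (hsl x).isClosed.measurableSet]
      rfl
    rw [e1]
    by_cases hx : x ∈ U
    · rw [indicator_of_mem hx, hIcc x (hUne x hx)]
      have hφ : ConvexOn ℝ univ fun t => h (ins i x t) :=
        ⟨convex_univ, fun s _ t _ p q hp hq hpq => by
          dsimp only
          rw [← ins_comb i x s t p q hpq]
          exact hconv.2 (mem_univ _) (mem_univ _) hp hq hpq⟩
      have h1 := Pool.Agent.H8.Chord.chord hφ (fun t => h0 _) c hc hc2 (a x) (b x) (le_of_lt hx)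
      refine le_trans (le_of_eq ?_) (h1.trans (add_le_add (hFge _ _) (hFge _ _)))
      congr 2
      ext t
      have : lineDeriv ℝ h (ins i x t) (EuclideanSpace.single i 1) =
          deriv (fun t => h (ins i x t)) t := by
        unfold lineDeriv
        simp only [ins_add]
        rw [deriv_comp_const_add (fun t => h (ins i x t)) t 0, add_zero]
      simp only [hG, this]
    · have h1 : volume (sl x) = 0 := by
        by_cases h2 : (sl x).Nonempty
        · rw [hIcc x h2, Real.volume_Icc, ENNReal.ofReal_eq_zero]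
          exact sub_nonpos.2 (not_lt.1 hx)
        · rw [not_nonempty_iff_eq_empty.1 h2, measure_empty]
      rw [setLIntegral_measure_zero _ _ h1]
      simp
  have hfr : ∀ x t, t ∈ sl x → (t = a x ∨ t = b x) → ins i x t ∈ frontier C := by
    intro x t ht hor
    rw [hC.isClosed.frontier_eq]
    refine ⟨ht, fun hi => ?_⟩
    have h1 : Continuous fun s => ins i x s :=
      (cont_ins i).comp (continuous_id.prodMk continuous_const)
    have h2 : sl x ∈ 𝓝 t := h1.continuousAt (mem_interior_iff_mem_nhds.1 hi)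
    rw [hIcc x ⟨t, ht⟩, Icc_mem_nhds_iff] at h2
    rcases hor with h3 | h3
    · exact h2.1.ne' h3
    · exact h2.2.ne h3
  have hT1 := graph_le i F hFm a ham U hU
  have hT2 := graph_le i F hFm b hbm U hU
  have hT2m : MeasurableSet {y : EuclideanSpace ℝ (Fin (m + 1)) | prj i y ∈ U ∧ y i = b (prj i y)} :=
    (hp.measurable hU).inter (measurableSet_eq_fun (by fun_prop) (hbm.comp hp.measurable))
  rw [← lintegral_indicator hCm, fubini i _ (hGm.indicator hCm),
    ← lintegral_const_mul' _ _ (by simp)]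
  refine (lintegral_mono hinner).trans ?_
  have hGa : Measurable fun x => F (ins i x (a x)) :=
    hFm.comp ((cont_ins i).measurable.comp (ham.prodMk measurable_id))
  rw [lintegral_indicator hU, lintegral_add_left hGa]
  refine (add_le_add hT1 hT2).trans ?_
  rw [← lintegral_union hT2m]
  · refine lintegral_mono_set ?_
    rintro y (⟨h1, h2⟩ | ⟨h1, h2⟩)
    · rw [← ins_prj i y]
      exact hfr _ _ (h2 ▸ (hsl _).sInf_mem (hUne _ h1)) (Or.inl h2)
    · rw [← ins_prj i y]
      exact hfr _ _ (h2 ▸ (hsl _).sSup_mem (hUne _ h1)) (Or.inr h2)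
  · rw [Set.disjoint_left]
    rintro y ⟨h1, h2⟩ ⟨-, h3⟩
    have : a (prj i y) < b (prj i y) := h1
    rw [← h2, ← h3] at this
    exact lt_irrefl _ this

lemma mink (p : Fin (m + 1) → ℝ) :
    √(1 + ∑ i, p i ^ 2) ≤ ∑ i, √((1 / ((m : ℝ) + 1)) ^ 2 + p i ^ 2) := by
  set c : ℝ := 1 / ((m : ℝ) + 1) with hc
  have hc0 : 0 ≤ c := by positivity
  have hc1 : c ≤ 1 := by
    rw [hc, div_le_one (by positivity)]
    linarith [(Nat.cast_nonneg m : (0 : ℝ) ≤ m)]
  set e : Fin (m + 1) → ℝ := fun i => √(c ^ 2 + p i ^ 2) - c with he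
  have he0 : ∀ i, 0 ≤ e i := fun i =>
    sub_nonneg.2 (Real.le_sqrt_of_sq_le (by nlinarith [sq_nonneg (p i)]))
  have h1 : ∑ i, √(c ^ 2 + p i ^ 2) = 1 + ∑ i, e i := by
    simp only [he, Finset.sum_sub_distrib, Finset.sum_const, Finset.card_univ, Fintype.card_fin,
      nsmul_eq_mul]
    have : ((m + 1 : ℕ) : ℝ) * c = 1 := by rw [hc]; push_cast; field_simp
    linarith
  have h2 : ∀ i, p i ^ 2 ≤ 2 * e i + e i ^ 2 := by
    intro i
    have h3 : √(c ^ 2 + p i ^ 2) ^ 2 = c ^ 2 + p i ^ 2 := Real.sq_sqrt (by positivity)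
    have h4 : √(c ^ 2 + p i ^ 2) = e i + c := by simp [he]
    rw [h4] at h3
    nlinarith [he0 i]
  have h5 : ∑ i, p i ^ 2 ≤ 2 * ∑ i, e i + ∑ i, e i ^ 2 := by
    rw [Finset.mul_sum, ← Finset.sum_add_distrib]
    exact Finset.sum_le_sum fun i _ => h2 i
  have h6 : ∑ i, e i ^ 2 ≤ (∑ i, e i) ^ 2 := Finset.sum_sq_le_sq_sum_of_nonneg fun i _ => he0 i
  have h7 : 0 ≤ ∑ i, e i := Finset.sum_nonneg fun i _ => he0 i
  rw [h1]
  exact Real.sqrt_le_iff.2 ⟨by linarith, by nlinarith⟩

lemma grad_le (h : EuclideanSpace ℝ (Fin (m + 1)) → ℝ) (z : EuclideanSpace ℝ (Fin (m + 1))) :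
    √(1 + ‖gradient h z‖ ^ 2) ≤
      ∑ i, √((1 / ((m : ℝ) + 1)) ^ 2 + (lineDeriv ℝ h z (EuclideanSpace.single i 1)) ^ 2) := by
  refine le_trans (Real.sqrt_le_sqrt (add_le_add_right ?_ _)) (mink _)
  by_cases hd : DifferentiableAt ℝ h z
  · rw [EuclideanSpace.real_norm_sq_eq]
    refine le_of_eq (Finset.sum_congr rfl fun i _ => ?_)
    rw [hd.lineDeriv_eq_fderiv, ← inner_gradient_left, EuclideanSpace.inner_single_right]
    simp
  · rw [gradient_eq_zero_of_not_differentiableAt hd, norm_zero]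
    have : 0 ≤ ∑ i, (lineDeriv ℝ h z (EuclideanSpace.single i 1)) ^ 2 := by positivity
    simpa using this

lemma main (hm : 1 ≤ m) (h : EuclideanSpace ℝ (Fin (m + 1)) → ℝ)
    (hconv : ConvexOn ℝ univ h) (h0 : ∀ y, 0 ≤ h y) (C : Set (EuclideanSpace ℝ (Fin (m + 1))))
    (hC : IsCompact C) (hCc : Convex ℝ C) :
    ENNReal.ofReal (2 / ((m : ℝ) + 1)) *
        ∫⁻ z in C, ENNReal.ofReal (h z * √(1 + ‖gradient h z‖ ^ 2)) ≤
      ∫⁻ y in frontier C, ENNReal.ofReal (‖y‖ ^ 2 + h y ^ 2) ∂μHE[m] := by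
  have hcont : Continuous h := hconv.locallyLipschitz.continuous
  have hm' : (1 : ℝ) ≤ m := by exact_mod_cast hm
  have h1 : ∫⁻ z in C, ENNReal.ofReal (h z * √(1 + ‖gradient h z‖ ^ 2)) ≤
      ∑ i, ∫⁻ z in C, ENNReal.ofReal (h z * √((1 / ((m : ℝ) + 1)) ^ 2 +
        (lineDeriv ℝ h z (EuclideanSpace.single i 1)) ^ 2)) := by
    rw [← lintegral_finsetSum]
    · refine lintegral_mono fun z => ?_
      rw [← ENNReal.ofReal_sum_of_nonneg fun i _ => mul_nonneg (h0 z) (Real.sqrt_nonneg _),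
        ← Finset.mul_sum]
      exact ENNReal.ofReal_le_ofReal (mul_le_mul_of_nonneg_left (grad_le h z) (h0 z))
    · intro i _
      have := measurable_lineDeriv (𝕜 := ℝ) (v := EuclideanSpace.single i (1 : ℝ)) hcont
      have := hcont.measurable
      fun_prop
  have h2 := Finset.sum_le_sum fun i (_ : i ∈ Finset.univ) =>
    direction i h hconv h0 C hC hCc (1 / ((m : ℝ) + 1)) (by positivity)
      (one_div_le_one_div_of_le (by norm_num) (by linarith))
  rw [← Finset.mul_sum, Finset.sum_const, Finset.card_univ, Fintype.card_fin, nsmul_eq_mul] at h2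
  have h3 : ENNReal.ofReal (2 / ((m : ℝ) + 1)) = ENNReal.ofReal (1 / ((m : ℝ) + 1)) * 2 := by
    rw [← ENNReal.ofReal_ofNat, ← ENNReal.ofReal_mul (by positivity)]
    congr 1
    ring
  have h4 : ENNReal.ofReal (1 / ((m : ℝ) + 1)) * ((m + 1 : ℕ) : ENNReal) = 1 := by
    rw [← ENNReal.ofReal_natCast, ← ENNReal.ofReal_mul (by positivity), ← ENNReal.ofReal_one]
    congr 1
    push_cast
    field_simp
  rw [h3, mul_assoc]
  refine (mul_le_mul_right ((mul_le_mul_right h1 2).trans h2) _).trans ?_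
  rw [← mul_assoc, h4, one_mul]

/-- The boundary-integral inequality holds in every dimension `n ≥ 3`. -/
theorem result (n : ℕ) (hn : 3 ≤ n) (h : EuclideanSpace ℝ (Fin (n - 1)) → ℝ)
    (hconv : ConvexOn ℝ univ h) (h0 : ∀ y, 0 ≤ h y) (C : Set (EuclideanSpace ℝ (Fin (n - 1))))
    (hC : IsCompact C) (hCc : Convex ℝ C) (_hsupp : C ⊆ closure {y | 0 < h y}) :
    ENNReal.ofReal (2 / ((n : ℝ) - 1)) *
        ∫⁻ z in C, ENNReal.ofReal (h z * √(1 + ‖gradient h z‖ ^ 2)) ≤
      ∫⁻ y in frontier C, ENNReal.ofReal (‖y‖ ^ 2 + h y ^ 2) ∂μHE[n - 2] := by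
  obtain ⟨m, rfl⟩ : ∃ m, n = m + 2 := ⟨n - 2, by omega⟩
  have e : ((m + 2 : ℕ) : ℝ) - 1 = (m : ℝ) + 1 := by push_cast; ring
  rw [e]
  exact main (by omega) h hconv h0 C hC hCc

end Pool.Agent.Results.MP_e9cb08_gt.Holds
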